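import Pool.Agent.W827.BW.Stm

/-! # Project BW: EXC, the excursion windows of the profile -/

set_option autoImplicit false

namespace Pool.Agent.W308.BW

open Pool.Agent.W827.BW

theorem exc_lt {w : ℤ → ℤ} {a b : ℤ} (h : Exc w a b) : a + 2 ≤ b := by
  induction h with
  | single a h1 h2 => exact le_rfl
  | quad a b c d h1 e1 e2 e3 h5 i1 i2 i3 => omega

theorem exc_shift {w w' : ℤ → ℤ} (c e : ℤ) {a b : ℤ} (h : Exc w a b) :
    (∀ x, a ≤ x → x ≤ b → w' (x + c) = w x + e) → Exc w' (a + c) (b + c) := by
  induction h with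
  | single a h1 h2 =>
    intro H
    have H0 := H a le_rfl (by omega)
    have H1 := H (a + 1) (by omega) (by omega)
    have H2 := H (a + 2) (by omega) le_rfl
    rw [show a + 2 + c = a + c + 2 by ring] at H2 ⊢
    rw [show a + 1 + c = a + c + 1 by ring] at H1
    exact Exc.single _ (by omega) (by omega)
  | quad a b c' d h1 e1 e2 e3 h5 i1 i2 i3 =>
    intro H
    have l1 := exc_lt e1
    have l2 := exc_lt e2
    have l3 := exc_lt e3
    have H0 := H a le_rfl (by omega)
    have H1 := H (a + 1) (by omega) (by omega)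
    have H2 := H d (by omega) le_rfl
    have j1 := i1 fun x hx hx' => H x (by omega) (by omega)
    have j2 := i2 fun x hx hx' => H x (by omega) (by omega)
    have j3 := i3 fun x hx hx' => H x (by omega) (by omega)
    rw [show a + 1 + c = a + c + 1 by ring] at H1 j1
    rw [show d - 1 + c = d + c - 1 by ring] at j3
    exact Exc.quad _ _ _ _ (by omega) j1 j2 j3 (by omega)

theorem uu_succ (n : ℕ) : uu (n + 1) = 3 * uu n + 1 := rfl

theorem uu_mono {j m : ℕ} (h : j ≤ m) : uu j ≤ uu m := by
  induction h with
  | refl => exact le_rfl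
  | step _ ih => rw [uu_succ]; omega

theorem uu_pos {k : ℕ} (hk : 1 ≤ k) : 1 ≤ uu k := by
  have := uu_mono hk
  have h1 : uu 1 = 1 := rfl
  omega

theorem F1 (h1 : S_LEV) (h2 : S_UREC) {k s : ℕ} (hk : 1 ≤ k) (hs : s ≤ 2 * uu k) :
    UU (uu k + s) = k + UU (min s (2 * uu k - s)) := by
  have hp := uu_pos hk
  have hl : lev (uu k + s) = k := (h1 _ _).mpr ⟨by omega, by rw [uu_succ]; omega⟩
  have := (h2.2 (uu k + s) (by omega)).2
  rw [this, rr, hl]
  congr 3 <;> omega

theorem W1 (h1 : S_LEV) {k s : ℕ} (hs : s ≤ 2 * uu k) (t : ℤ)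
    (ht : t.natAbs = uu k + s) : ww t = -(k : ℤ) + UU (min s (2 * uu k - s)) := by
  have hl : lev (uu k + s) = k := (h1 _ _).mpr ⟨by omega, by rw [uu_succ]; omega⟩
  rw [ww, ht, rr, hl]
  congr 4 <;> omega

/-- the tent profile -/
def N (m : ℕ) (s : ℤ) : ℤ := (UU (min s (2 * uu m - s)).toNat : ℤ)

theorem N_eq {m : ℕ} (s : ℕ) (hs : s ≤ uu m) : N m s = UU s := by
  rw [N]
  congr 2
  omega

theorem N_symm (m : ℕ) (s : ℤ) : N m (2 * uu m - s) = N m s := by
  rw [N, N]
  congr 3
  rw [min_comm]
  congr 1
  ring

theorem UU_three (h1 : S_LEV) (h2 : S_UREC) (j : ℕ) : UU (3 * uu j) = j := by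
  rcases Nat.eq_zero_or_pos j with rfl | hj
  · exact h2.1
  · have := F1 h1 h2 (k := j) (s := 2 * uu j) hj le_rfl
    rw [show uu j + 2 * uu j = 3 * uu j by ring, Nat.sub_self, Nat.min_zero, h2.1] at this
    exact this

theorem UU_uu (h1 : S_LEV) (h2 : S_UREC) {j : ℕ} (hj : 1 ≤ j) : UU (uu j) = j := by
  have := F1 h1 h2 (k := j) (s := 0) hj (Nat.zero_le _)
  rw [Nat.zero_min, h2.1] at this
  exact this

theorem main_claim (h1 : S_LEV) (h2 : S_UREC) : ∀ m j : ℕ, j < m →
    Exc (N m) (3 * uu j) (2 * uu m - 3 * uu j) := by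
  intro m
  induction m using Nat.strong_induction_on with
  | _ m ihm =>
    have key : ∀ d j : ℕ, j + d + 1 = m → Exc (N m) (3 * uu j) (2 * uu m - 3 * uu j) := by
      intro d
      induction d with
      | zero =>
        intro j hj
        have hm : m = j + 1 := by omega
        subst hm
        have hu := uu_succ j
        have e0 : ((uu (j + 1) : ℕ) : ℤ) = 3 * uu j + 1 := by rw [hu]; push_cast; ring
        have e1 : (2 * (uu (j + 1) : ℤ) - 3 * uu j) = 3 * uu j + 2 := by rw [e0]; ring
        have n0 : N (j + 1) (3 * uu j) = j := by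
          have := N_eq (m := j + 1) (3 * uu j) (by omega)
          rw [UU_three h1 h2] at this
          push_cast at this
          exact this
        have n1 : N (j + 1) (3 * uu j + 1) = j + 1 := by
          have := N_eq (m := j + 1) (uu (j + 1)) le_rfl
          rw [UU_uu h1 h2 (by omega), e0] at this
          push_cast at this
          exact this
        have n2 : N (j + 1) (3 * uu j + 2) = j := by
          rw [← e1, N_symm, n0]
        rw [e1]
        exact Exc.single _ (by omega) (by omega)
      | succ d ihd =>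
        intro j hj
        have hjm : j + 1 < m := by omega
        have hu := uu_succ j
        have e0 : ((uu (j + 1) : ℕ) : ℤ) = 3 * uu j + 1 := by rw [hu]; push_cast; ring
        have hle : 3 * uu (j + 1) + 1 ≤ uu m := by
          have := uu_mono (show j + 2 ≤ m by omega)
          rw [uu_succ (j + 1)] at this
          exact this
        have hsm := ihm (j + 1) hjm 0 (by omega)
        have z0 : ((uu 0 : ℕ) : ℤ) = 0 := rfl
        rw [z0, mul_zero, sub_zero] at hsm
        have n0 : N m (3 * uu j) = j := by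
          have := N_eq (m := m) (3 * uu j) (by omega)
          rw [UU_three h1 h2] at this
          push_cast at this
          exact this
        have n1 : N m (3 * uu j + 1) = j + 1 := by
          have := N_eq (m := m) (uu (j + 1)) (by omega)
          rw [UU_uu h1 h2 (by omega), e0] at this
          push_cast at this
          exact this
        have a1 : Exc (N m) (3 * uu j + 1) (3 * uu (j + 1)) := by
          have := exc_shift (w' := N m) (uu (j + 1)) (j + 1) hsm (fun x hx hx' => by
            obtain ⟨s, rfl⟩ := Int.eq_ofNat_of_zero_le hx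
            have hs : s ≤ 2 * uu (j + 1) := by exact_mod_cast hx'
            have q1 := N_eq (m := m) (uu (j + 1) + s) (by omega)
            rw [F1 h1 h2 (by omega) hs] at q1
            have q2 : N (j + 1) (s : ℤ) = UU (min s (2 * uu (j + 1) - s)) := by
              rw [N]
              congr 2
              omega
            rw [q2, add_comm (s : ℤ)]
            push_cast at q1 ⊢
            rw [q1]
            ring)
          rw [zero_add, e0] at this
          rw [show (3 * ((uu (j + 1) : ℕ) : ℤ)) = 2 * (3 * (uu j : ℤ) + 1) + (3 * uu j + 1) by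
            rw [e0]; ring]
          exact this
        have a2 := ihd (j + 1) (by omega)
        have a3 : Exc (N m) (2 * uu m - 3 * uu (j + 1)) (2 * uu m - 3 * uu j - 1) := by
          have := exc_shift (w' := N m) (2 * uu m - 3 * uu (j + 1)) (j + 1) hsm
            (fun x hx hx' => by
            obtain ⟨s, rfl⟩ := Int.eq_ofNat_of_zero_le hx
            have hs : s ≤ 2 * uu (j + 1) := by exact_mod_cast hx'
            have q0 : (s : ℤ) + (2 * uu m - 3 * uu (j + 1)) =
                2 * uu m - ((uu (j + 1) + (2 * uu (j + 1) - s) : ℕ) : ℤ) := by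
              push_cast [Nat.cast_sub hs]
              ring
            rw [q0, N_symm, N_eq (m := m) _ (by omega), F1 h1 h2 (by omega) (by omega)]
            have q2 : N (j + 1) (s : ℤ) = UU (min s (2 * uu (j + 1) - s)) := by
              rw [N]
              congr 2
              omega
            rw [q2]
            have q3 : min (2 * uu (j + 1) - s) (2 * uu (j + 1) - (2 * uu (j + 1) - s)) =
                min s (2 * uu (j + 1) - s) := by omega
            rw [q3]
            push_cast
            ring)
          rw [zero_add] at this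
          rw [show (2 * (uu m : ℤ) - 3 * uu j - 1) =
            2 * (uu (j + 1) : ℤ) + (2 * uu m - 3 * uu (j + 1)) by rw [e0]; ring]
          exact this
        exact Exc.quad _ _ _ _ (by omega) a1 a2 a3 (by rw [N_symm])
    intro j hj
    obtain ⟨d, hd⟩ := Nat.exists_eq_add_of_lt hj
    exact key d j hd.symm

theorem t_EXC (h1 : S_LEV) (h2 : S_UREC) : S_EXC := by
  have hN : ∀ m : ℕ, 1 ≤ m → Exc (N m) 0 (2 * uu m) := by
    intro m hm
    have := main_claim h1 h2 m 0 hm
    have z0 : ((uu 0 : ℕ) : ℤ) = 0 := rfl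
    rw [z0, mul_zero, sub_zero] at this
    exact this
  have v1 : ∀ m : ℕ, ww (uu m) = -m := by
    intro m
    have := W1 h1 (k := m) (s := 0) (Nat.zero_le _) (uu m) (by simp)
    rw [this, Nat.zero_min, h2.1]
    simp
  have v2 : ∀ m : ℕ, ww (3 * uu m) = -m := by
    intro m
    have := W1 h1 (k := m) (s := 2 * uu m) le_rfl (3 * uu m) (by omega)
    rw [this, Nat.sub_self, Nat.min_zero, h2.1]
    simp
  have v3 : ∀ m : ℕ, ww (-(uu m)) = -m := by
    intro m
    have := W1 h1 (k := m) (s := 0) (Nat.zero_le _) (-(uu m)) (by simp)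
    rw [this, Nat.zero_min, h2.1]
    simp
  have v4 : ∀ m : ℕ, ww (-(3 * uu m)) = -m := by
    intro m
    have := W1 h1 (k := m) (s := 2 * uu m) le_rfl (-(3 * uu m)) (by omega)
    rw [this, Nat.sub_self, Nat.min_zero, h2.1]
    simp
  have w1 : ∀ m : ℕ, 1 ≤ m → Exc ww (uu m) (3 * uu m) := by
    intro m hm
    have := exc_shift (w' := ww) (uu m) (-m) (hN m hm) (fun x hx hx' => by
      obtain ⟨s, rfl⟩ := Int.eq_ofNat_of_zero_le hx
      have hs : s ≤ 2 * uu m := by exact_mod_cast hx'
      rw [W1 h1 hs _ (by omega)]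
      have q2 : N m (s : ℤ) = UU (min s (2 * uu m - s)) := by
        rw [N]
        congr 2
        omega
      rw [q2]
      ring)
    rw [zero_add, show (2 * (uu m : ℤ) + uu m) = 3 * uu m by ring] at this
    exact this
  have w2 : ∀ m : ℕ, 1 ≤ m → Exc ww (-(3 * uu m)) (-(uu m)) := by
    intro m hm
    have := exc_shift (w' := ww) (-(3 * uu m)) (-m) (hN m hm) (fun x hx hx' => by
      obtain ⟨s, rfl⟩ := Int.eq_ofNat_of_zero_le hx
      have hs : s ≤ 2 * uu m := by exact_mod_cast hx'
      rw [W1 h1 (k := m) (s := 2 * uu m - s) (by omega) _ (by omega)]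
      have q2 : N m (s : ℤ) = UU (min s (2 * uu m - s)) := by
        rw [N]
        congr 2
        omega
      rw [q2]
      have q3 : min (2 * uu m - s) (2 * uu m - (2 * uu m - s)) = min s (2 * uu m - s) := by
        omega
      rw [q3]
      ring)
    rw [zero_add, show (2 * (uu m : ℤ) + -(3 * uu m)) = -(uu m) by ring] at this
    exact this
  have w3 : ∀ m : ℕ, 1 ≤ m → Exc ww (-(uu m)) (uu m) := by
    intro m hm
    induction m, hm using Nat.le_induction with
    | base =>
      have e1 : ((uu 1 : ℕ) : ℤ) = 1 := rfl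
      have z0 : ((uu 0 : ℕ) : ℤ) = 0 := rfl
      have a0 := v1 0
      have a1 := v1 1
      have a2 := v3 1
      rw [z0] at a0
      rw [e1] at a1 a2 ⊢
      have := Exc.single (w := ww) (-1) (by
        rw [show (-1 + 1 : ℤ) = 0 by norm_num, a0, a2]; norm_num)
        (by rw [show (-1 + 2 : ℤ) = 1 by norm_num, a1, a2])
      rw [show (-1 + 2 : ℤ) = 1 by norm_num] at this
      exact this
    | succ m hm ih =>
      have e0 : ((uu (m + 1) : ℕ) : ℤ) = 3 * uu m + 1 := by rw [uu_succ]; push_cast; ring
      have b1 := v3 (m + 1)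
      have b2 := v4 m
      have b3 := v1 (m + 1)
      have b4 := v2 m
      have k1 := w2 m hm
      have k2 := w1 m hm
      rw [e0] at b1 b3 ⊢
      refine Exc.quad _ (-(uu m)) (uu m) _ ?_ ?_ ih ?_ ?_
      · rw [show (-(3 * (uu m : ℤ) + 1) + 1) = -(3 * uu m) by ring, b2, b1]
        push_cast
        ring
      · rw [show (-(3 * (uu m : ℤ) + 1) + 1) = -(3 * uu m) by ring]
        exact k1
      · rw [show (3 * (uu m : ℤ) + 1 - 1) = 3 * uu m by ring]
        exact k2
      · rw [b1, b3]
  intro m hm
  exact ⟨w2 m hm, w3 m hm, w1 m hm, v4 m, v3 m, v1 m, v2 m⟩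

end Pool.Agent.W308.BW
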