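import Pool.Agent.W434.BW.StmC

/-!
Project BW, task SP: path relations of the block instance contain the parallel steps.
-/

set_option autoImplicit false

namespace Pool.Agent.W308.BWSP

open Pool.Agent.W434.BW

variable {A : Type} (D : Blk A)

/-- colours -/
def Col (c : A → A → A) : Prop := ∃ d, D.Cp c d

/-- walks in the colour graph -/
def Wk : ℕ → (A → A → A) → (A → A → A) → Prop
  | 0, c, c' => c = c' ∧ Col D c
  | (k + 1), c, c' => ∃ d, D.Cp c d ∧ Wk k d c'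

theorem Wk.col {k : ℕ} {c c' : A → A → A} (h : Wk D k c c') : Col D c := by
  cases k with
  | zero => exact h.2
  | succ k => obtain ⟨d, hd, -⟩ := h; exact ⟨d, hd⟩

/-- the evaluation vector -/
def vec {n : ℕ} (p : Fin n) (s t : A) : Fin n → A := fun i => if i = p then t else s

theorem minor_eq {n : ℕ} (g : (Fin n → A) → A) (p : Fin n) (s t : A) :
    g (vec p s t) = minor g p s t := rfl

variable {Ω1 Ω2 : Type} {ar1 : Ω1 → ℕ} {ar2 : Ω2 → ℕ} {a1 : Alg ar1 A} {a2 : Alg ar2 A}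

section walks
variable {D} (hD : D.Ok a1 a2)
include hD

theorem w1 {c c' : A → A → A} (h : D.Cp c c') : Wk D 1 c c' :=
  ⟨c', h, rfl, c, hD.symm _ _ h⟩

theorem w2 (m : ℕ) : ∀ {c c' : A → A → A}, ((c = c' ∧ Col D c) ∨ D.Cp c c') →
    Wk D (m + 2) c c' := by
  induction m with
  | zero =>
    rintro c c' (⟨rfl, d, hd⟩ | h)
    · exact ⟨d, hd, w1 hD (hD.symm _ _ hd)⟩
    · obtain ⟨e, h1, h2⟩ := hD.tri _ _ h
      exact ⟨e, h1, w1 hD (hD.symm _ _ h2)⟩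
  | succ m ih =>
    rintro c c' (⟨rfl, d, hd⟩ | h)
    · exact ⟨d, hd, ih (Or.inr (hD.symm _ _ hd))⟩
    · obtain ⟨e, h1, h2⟩ := hD.tri _ _ h
      exact ⟨e, h1, ih (Or.inr (hD.symm _ _ h2))⟩

theorem wk_same {k : ℕ} {c : A → A → A} (h : Col D c) (hk : k ≠ 1) : Wk D k c c := by
  rcases k with _ | _ | k
  · exact ⟨rfl, h⟩
  · exact absurd rfl hk
  · exact w2 hD k (Or.inl ⟨rfl, h⟩)

theorem wk_adj {k : ℕ} {c c' : A → A → A} (h : D.Cp c c') (hk : k ≠ 0) : Wk D k c c' := by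
  rcases k with _ | _ | k
  · exact absurd rfl hk
  · exact w1 hD h
  · exact w2 hD k (Or.inr h)

theorem exists_ne (b : D.B) (p : Fin (D.n b)) : ∃ q, p ≠ q := by
  have h := hD.two b
  by_cases h0 : p.val = 0
  · refine ⟨⟨1, by omega⟩, ?_⟩
    intro h1
    have := congrArg Fin.val h1
    simp at this
    omega
  · refine ⟨⟨0, by omega⟩, ?_⟩
    intro h1
    have := congrArg Fin.val h1
    simp at this
    omega

theorem exists_lift {b : D.B} (p : Fin (D.n b)) {c : A → A → A} (h : Col D c) :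
    ∃ g ∈ D.F b, minor g p = c := by
  obtain ⟨q, hq⟩ := exists_ne hD b p
  obtain ⟨d, hd⟩ := h
  obtain ⟨g, hg, h1, -⟩ := hD.k1 b p q hq c d hd
  exact ⟨g, hg, h1⟩

theorem minor_col {b : D.B} (p : Fin (D.n b)) {g : (Fin (D.n b) → A) → A} (hg : g ∈ D.F b) :
    Col D (minor g p) := by
  obtain ⟨q, hq⟩ := exists_ne hD b p
  exact ⟨_, hD.k2 b g hg p q hq⟩

end walks

/-- the kinds of steps -/
inductive Stp : D.V → D.V → (A → A → Prop) → Prop
  | blk (b : D.B) (u u' : Fin (D.n b) → A) (E : A → A → Prop)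
      (h : ∀ a a', E a a' ↔ ∃ g ∈ D.F b, g u = a ∧ g u' = a') :
      Stp (Sum.inr ⟨b, u⟩) (Sum.inr ⟨b, u'⟩) E
  | idI (j : Fin D.N) (s t : A) (E : A → A → Prop)
      (h : ∀ a a', E a a' ↔ a = a' ∧ ∃ c, Col D c ∧ a = c s t) :
      Stp (Sum.inl (j, s, t)) (Sum.inl (j, s, t)) E
  | dn (b : D.B) (p : Fin (D.n b)) (s t : A) (E : A → A → Prop)
      (h : ∀ a a', E a a' ↔ a = a' ∧ ∃ c, Col D c ∧ a = c s t) :
      Stp (Sum.inl (D.idx b p, s, t)) (Sum.inr ⟨b, vec p s t⟩) E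
  | up (b : D.B) (p : Fin (D.n b)) (s t : A) (E : A → A → Prop)
      (h : ∀ a a', E a a' ↔ a = a' ∧ ∃ c, Col D c ∧ a = c s t) :
      Stp (Sum.inr ⟨b, vec p s t⟩) (Sum.inl (D.idx b p, s, t)) E

theorem link_iff (s t : A) (i i' : Bool) (a a' : A) :
    (∃ r ∈ {r : Bool → A | r false = r true ∧ ∃ c d, D.Cp c d ∧ r false = c s t},
      r i = a ∧ r i' = a') ↔ a = a' ∧ ∃ c, Col D c ∧ a = c s t := by
  constructor
  · rintro ⟨r, ⟨h1, c, d, h2, h3⟩, h4, h5⟩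
    have h6 : ∀ i, r i = r false := by
      intro i
      cases i
      · rfl
      · exact h1.symm
    rw [h6] at h4 h5
    exact ⟨h4.symm.trans h5, c, ⟨d, h2⟩, h4.symm.trans h3⟩
  · rintro ⟨rfl, c, ⟨d, h2⟩, h3⟩
    exact ⟨fun _ => a, ⟨rfl, c, d, h2, h3⟩, rfl, rfl⟩

theorem stp {D : Blk A} (hD : D.Ok a1 a2) (s : (Σ k, D.ι k × D.ι k) ⊕ D.V) :
    Stp D (D.inst.sys.src s) (D.inst.sys.tgt s) (D.inst.sys.E s) := by
  rcases s with ⟨(⟨b, f⟩ | ⟨b, p, s, t⟩), ⟨u, u'⟩⟩ | (⟨j, s, t⟩ | ⟨b, u⟩)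
  · cases f with
    | true => exact Stp.blk b u u' _ (fun a a' => Iff.rfl)
    | false => exact Stp.blk b u u' _ (fun a a' => (hD.pair b u u' a a').symm)
  · have u1 : Bool := u
    change Bool at u
    change Bool at u'
    cases u with
    | false =>
      cases u' with
      | false => exact Stp.idI (D.idx b p) s t _ (fun a a' => link_iff D s t false false a a')
      | true => exact Stp.dn b p s t _ (fun a a' => link_iff D s t false true a a')
    | true =>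
      cases u' with
      | false => exact Stp.up b p s t _ (fun a a' => link_iff D s t true false a a')
      | true =>
        refine Stp.blk b (vec p s t) (vec p s t) _ (fun a a' => ?_)
        refine (link_iff D s t true true a a').trans ?_
        constructor
        · rintro ⟨rfl, c, hc, rfl⟩
          obtain ⟨g, hg, rfl⟩ := exists_lift hD p hc
          exact ⟨g, hg, rfl, rfl⟩
        · rintro ⟨g, hg, rfl, rfl⟩
          exact ⟨rfl, minor g p, minor_col hD p hg, rfl⟩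
  · refine Stp.idI j s t _ (fun a a' => ?_)
    constructor
    · rintro ⟨h, c, d, hc, h2⟩
      exact ⟨h, c, ⟨d, hc⟩, h2⟩
    · rintro ⟨h, c, ⟨d, hc⟩, h2⟩
      exact ⟨h, c, d, hc, h2⟩
  · refine Stp.blk b u u _ (fun a a' => ?_)
    constructor
    · rintro ⟨h, g, hg, h2⟩
      exact ⟨g, hg, h2.symm, h2.symm.trans h⟩
    · rintro ⟨g, hg, h1, h2⟩
      exact ⟨h1.symm.trans h2, g, hg, h1.symm⟩

/-- the statement of Lemma 1 -/
def P1 (jf : Fin D.N) (T : A → (A → A → A) → Prop) : D.V → Prop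
  | .inl y => ∃ k : ℕ, (k = 0 → y.1 = jf) ∧ (k = 1 → y.1 ≠ jf) ∧
      ∀ c cf, Wk D k c cf → T (c y.2.1 y.2.2) cf
  | .inr z => ∃ (p : Fin (D.n z.1)) (k : ℕ), (k = 0 → D.idx z.1 p = jf) ∧
      (k = 1 → D.idx z.1 p ≠ jf) ∧ ∀ g ∈ D.F z.1, ∀ cf, Wk D k (minor g p) cf → T (g z.2) cf

theorem step1 {D : Blk A} (hD : D.Ok a1 a2) {x x' : D.V} {E : A → A → Prop} (h : Stp D x x' E)
    {jf : Fin D.N} {T : A → (A → A → A) → Prop} (h' : P1 D jf T x') :
    P1 D jf (fun a cf => ∃ a', E a a' ∧ T a' cf) x := by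
  cases h with
  | blk b u u' _ hE =>
    obtain ⟨p, k, h0, h1, H⟩ := h'
    exact ⟨p, k, h0, h1, fun g hg cf hw => ⟨g u', (hE _ _).2 ⟨g, hg, rfl, rfl⟩, H g hg cf hw⟩⟩
  | idI j s t _ hE =>
    obtain ⟨k, h0, h1, H⟩ := h'
    exact ⟨k, h0, h1, fun c cf hw => ⟨c s t, (hE _ _).2 ⟨rfl, c, hw.col, rfl⟩, H c cf hw⟩⟩
  | dn b p s t _ hE =>
    obtain ⟨p', k, h0, h1, H⟩ := h'
    change Fin (D.n b) at p'
    by_cases hp : p' = p
    · subst hp
      refine ⟨k, h0, h1, fun c cf hw => ?_⟩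
      obtain ⟨g, hg, rfl⟩ := exists_lift hD p' hw.col
      exact ⟨minor g p' s t, (hE _ _).2 ⟨rfl, _, hw.col, rfl⟩, H g hg cf hw⟩
    · refine ⟨k + 1, fun h => absurd h (Nat.succ_ne_zero k), fun hk hj => ?_, fun c cf hw => ?_⟩
      · have hk0 : k = 0 := by omega
        exact hp (hD.inj b ((h0 hk0).trans hj.symm))
      · obtain ⟨d, hcd, hw'⟩ := hw
        obtain ⟨g, hg, rfl, rfl⟩ := hD.k1 b p p' (fun h => hp h.symm) c d hcd
        exact ⟨minor g p s t, (hE _ _).2 ⟨rfl, _, ⟨_, hcd⟩, rfl⟩, H g hg cf hw'⟩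
  | up b p s t _ hE =>
    obtain ⟨k, h0, h1, H⟩ := h'
    refine ⟨p, k, h0, h1, fun g hg cf hw => ?_⟩
    exact ⟨minor g p s t, (hE _ _).2 ⟨rfl, _, hw.col, rfl⟩, H _ cf hw⟩

/-- the statement of Lemma 2 -/
inductive P2 (b0 : D.B) (T : A → ((Fin (D.n b0) → A) → A) → Prop) : D.V → Prop
  | i (j : Fin D.N) (s t : A) (pf : Fin (D.n b0)) (k : ℕ) (h0 : k = 0 → j = D.idx b0 pf)
      (h1 : k = 1 → j ≠ D.idx b0 pf)
      (H : ∀ c, ∀ g0 ∈ D.F b0, Wk D k c (minor g0 pf) → T (c s t) g0) :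
      P2 b0 T (Sum.inl (j, s, t))
  | a (u : Fin (D.n b0) → A) (H : ∀ g ∈ D.F b0, T (g u) g) : P2 b0 T (Sum.inr ⟨b0, u⟩)
  | b (b : D.B) (u : Fin (D.n b) → A) (p : Fin (D.n b)) (pf : Fin (D.n b0)) (k : ℕ)
      (h0 : k = 0 → D.idx b p = D.idx b0 pf) (h1 : k = 1 → D.idx b p ≠ D.idx b0 pf)
      (H : ∀ g ∈ D.F b, ∀ g0 ∈ D.F b0, Wk D k (minor g p) (minor g0 pf) → T (g u) g0) :
      P2 b0 T (Sum.inr ⟨b, u⟩)

theorem step2 {D : Blk A} (hD : D.Ok a1 a2) {x x' : D.V} {E : A → A → Prop} (h : Stp D x x' E)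
    {b0 : D.B} {T : A → ((Fin (D.n b0) → A) → A) → Prop} (h' : P2 D b0 T x') :
    P2 D b0 (fun a g0 => ∃ a', E a a' ∧ T a' g0) x := by
  cases h with
  | blk b u u' _ hE =>
    cases h' with
    | a w H =>
      exact P2.a u fun g hg => ⟨g w, (hE _ _).2 ⟨g, hg, rfl, rfl⟩, H g hg⟩
    | b _ _ p pf k h0 h1 H =>
      exact P2.b b u p pf k h0 h1 fun g hg g0 hg0 hw =>
        ⟨g u', (hE _ _).2 ⟨g, hg, rfl, rfl⟩, H g hg g0 hg0 hw⟩
  | idI j s t _ hE =>
    cases h' with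
    | i _ _ _ pf k h0 h1 H =>
      exact P2.i j s t pf k h0 h1 fun c g0 hg0 hw =>
        ⟨c s t, (hE _ _).2 ⟨rfl, c, hw.col, rfl⟩, H c g0 hg0 hw⟩
  | dn b p s t _ hE =>
    cases h' with
    | a _ H =>
      refine P2.i _ s t p 0 (fun _ => rfl) (fun h => absurd h (by norm_num))
        fun c g0 hg0 hw => ?_
      obtain ⟨rfl, hc⟩ := hw
      exact ⟨minor g0 p s t, (hE _ _).2 ⟨rfl, _, hc, rfl⟩, H g0 hg0⟩
    | b _ _ p' pf k h0 h1 H =>
      by_cases hp : p' = p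
      · subst hp
        refine P2.i _ s t pf k h0 h1 fun c g0 hg0 hw => ?_
        obtain ⟨g, hg, rfl⟩ := exists_lift hD p' hw.col
        exact ⟨minor g p' s t, (hE _ _).2 ⟨rfl, _, hw.col, rfl⟩, H g hg g0 hg0 hw⟩
      · refine P2.i _ s t pf (k + 1) (fun h => absurd h (Nat.succ_ne_zero k))
          (fun hk hj => ?_) fun c g0 hg0 hw => ?_
        · have hk0 : k = 0 := by omega
          exact hp (hD.inj b ((h0 hk0).trans hj.symm))
        · obtain ⟨d, hcd, hw'⟩ := hw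
          obtain ⟨g, hg, rfl, rfl⟩ := hD.k1 b p p' (fun h => hp h.symm) c d hcd
          exact ⟨minor g p s t, (hE _ _).2 ⟨rfl, _, ⟨_, hcd⟩, rfl⟩, H g hg g0 hg0 hw'⟩
  | up b p s t _ hE =>
    cases h' with
    | i _ _ _ pf k h0 h1 H =>
      refine P2.b b _ p pf k h0 h1 fun g hg g0 hg0 hw => ?_
      exact ⟨minor g p s t, (hE _ _).2 ⟨rfl, _, hw.col, rfl⟩, H _ g0 hg0 hw⟩

theorem path1 {D : Blk A} (hD : D.Ok a1 a2) (jf : Fin D.N) (sf tf : A) :
    ∀ (π : List ((Σ k, D.ι k × D.ι k) ⊕ D.V)) (x : D.V),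
      D.inst.sys.IsPath π x (Sum.inl (jf, sf, tf)) →
      P1 D jf (fun a cf => D.inst.sys.Rl π a (cf sf tf)) x := by
  intro π
  induction π with
  | nil =>
    intro x hx
    have hx' : x = Sum.inl (jf, sf, tf) := hx
    subst hx'
    refine ⟨0, fun _ => rfl, fun h => absurd h (by norm_num), fun c cf hw => ?_⟩
    obtain ⟨rfl, -⟩ := hw
    rfl
  | cons s π ih =>
    rintro x ⟨h1, h2⟩
    have h3 := step1 hD (stp hD s) (ih _ h2)
    rw [h1] at h3
    exact h3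

theorem path2 {D : Blk A} (hD : D.Ok a1 a2) (b0 : D.B) (uf : Fin (D.n b0) → A) :
    ∀ (π : List ((Σ k, D.ι k × D.ι k) ⊕ D.V)) (x : D.V),
      D.inst.sys.IsPath π x (Sum.inr ⟨b0, uf⟩) →
      P2 D b0 (fun a g0 => D.inst.sys.Rl π a (g0 uf)) x := by
  intro π
  induction π with
  | nil =>
    intro x hx
    have hx' : x = Sum.inr ⟨b0, uf⟩ := hx
    subst hx'
    exact P2.a uf fun g _ => rfl
  | cons s π ih =>
    rintro x ⟨h1, h2⟩
    have h3 := step2 hD (stp hD s) (ih _ h2)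
    rw [h1] at h3
    exact h3

theorem concl {D : Blk A} (hD : D.Ok a1 a2) {x x' : D.V} {E : A → A → Prop} (h : Stp D x x' E)
    (π : List ((Σ k, D.ι k × D.ι k) ⊕ D.V)) (hπ : D.inst.sys.IsPath π x x') (a b : A)
    (hab : E a b) : D.inst.sys.Rl π a b := by
  cases h with
  | blk b0 u u' _ hE =>
    obtain ⟨g, hg, rfl, rfl⟩ := (hE _ _).1 hab
    have h2 := path2 hD b0 u' π _ hπ
    cases h2 with
    | a _ H => exact H g hg
    | b _ _ p pf k h0 h1 H =>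
      apply H g hg g hg
      by_cases hp : p = pf
      · subst hp
        exact wk_same hD (minor_col hD p hg) (fun hk => h1 hk rfl)
      · exact wk_adj hD (hD.k2 b0 g hg p pf hp) (fun hk => hp (hD.inj b0 (h0 hk)))
  | idI j s t _ hE =>
    obtain ⟨rfl, c, hc, rfl⟩ := (hE _ _).1 hab
    obtain ⟨k, h0, h1, H⟩ := path1 hD j s t π _ hπ
    exact H c c (wk_same hD hc (fun hk => h1 hk rfl))
  | dn b0 p0 s t _ hE =>
    obtain ⟨rfl, c, hc, rfl⟩ := (hE _ _).1 hab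
    have h2 := path2 hD b0 (vec p0 s t) π _ hπ
    obtain ⟨g0, hg0, rfl⟩ := exists_lift hD p0 hc
    cases h2 with
    | i _ _ _ pf k h0 h1 H =>
      apply H (minor g0 p0) g0 hg0
      by_cases hp : p0 = pf
      · subst hp
        exact wk_same hD hc (fun hk => h1 hk rfl)
      · exact wk_adj hD (hD.k2 b0 g0 hg0 p0 pf hp) (fun hk => hp (hD.inj b0 (h0 hk)))
  | up b0 p0 s t _ hE =>
    obtain ⟨rfl, c, hc, rfl⟩ := (hE _ _).1 hab
    obtain ⟨p, k, h0, h1, H⟩ := path1 hD (D.idx b0 p0) s t π _ hπ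
    change Fin (D.n b0) at p
    obtain ⟨g0, hg0, rfl⟩ := exists_lift hD p0 hc
    apply H g0 hg0 (minor g0 p0)
    by_cases hp : p = p0
    · subst hp
      exact wk_same hD hc (fun hk => h1 hk rfl)
    · exact wk_adj hD (hD.k2 b0 g0 hg0 p p0 hp) (fun hk => hp (hD.inj b0 (h0 hk)))

theorem sp : S_sp := by
  intro Ω1 Ω2 ar1 ar2 A a1 a2 D hD s π hπ a b hab
  exact concl hD (stp hD s) π hπ a b hab

end Pool.Agent.W308.BWSP
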