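import Pool.Agent.W308.BW.EXC

/-! # Project BW: BLOCK, a closed ring stops the open clusters from inside -/

set_option autoImplicit false

namespace Pool.Agent.W308.BW

open Pool.Agent.W827.BW

theorem UU_zero : UU 0 = 0 := rfl

theorem ww_low (h1 : S_LEV) (m : ℕ) (t : ℤ) (ht : |t| ≤ 3 * uu m) : -(m : ℤ) ≤ ww t := by
  have h2 : lev t.natAbs ≤ m := by
    by_contra hlt
    have h3 := (h1 t.natAbs (lev t.natAbs)).mp rfl
    have h4 := uu_mono (show m + 1 ≤ lev t.natAbs by omega)
    rw [uu_succ] at h4
    have h5 : (t.natAbs : ℤ) = |t| := Int.natCast_natAbs t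
    omega
  rw [ww]
  have : (lev t.natAbs : ℤ) ≤ m := by exact_mod_cast h2
  have h0 : (0 : ℤ) ≤ (UU (rr t.natAbs) : ℤ) := Int.natCast_nonneg _
  omega

theorem v1 (h1 : S_LEV) (m : ℕ) : ww (uu m) = -m := by
  have := W1 h1 (k := m) (s := 0) (Nat.zero_le _) (uu m) (by simp)
  rw [this, Nat.zero_min, UU_zero]
  simp

theorem v2 (h1 : S_LEV) (m : ℕ) : ww (3 * uu m) = -m := by
  have := W1 h1 (k := m) (s := 2 * uu m) le_rfl (3 * uu m) (by omega)
  rw [this, Nat.sub_self, Nat.min_zero, UU_zero]
  simp

theorem v3 (h1 : S_LEV) (m : ℕ) : ww (-(uu m)) = -m := by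
  have := W1 h1 (k := m) (s := 0) (Nat.zero_le _) (-(uu m)) (by simp)
  rw [this, Nat.zero_min, UU_zero]
  simp

theorem v4 (h1 : S_LEV) (m : ℕ) : ww (-(3 * uu m)) = -m := by
  have := W1 h1 (k := m) (s := 2 * uu m) le_rfl (-(3 * uu m)) (by omega)
  rw [this, Nat.sub_self, Nat.min_zero, UU_zero]
  simp

/-- nested paths keep the ancestor -/
theorem anc (h1 : S_LEV) {D : ℕ} (hD : 2 ≤ D) (m : ℕ) (β : ℤ → ℤ) (j : ℤ)
    (hβ : β (-(3 * uu m)) = j)
    (hn : ∀ t, -(3 * (uu m : ℤ)) ≤ t → t < 3 * uu m → Nest D ww t (β t) (β (t + 1))) :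
    ∀ s : ℕ, (s : ℤ) ≤ 2 * (3 * uu m) →
      β (-(3 * uu m) + s) / (D : ℤ) ^ (ww (-(3 * uu m) + s) + m).toNat = j := by
  intro s
  induction s with
  | zero =>
    intro _
    rw [Nat.cast_zero, add_zero, v4 h1, hβ]
    simp
  | succ s ih =>
    intro hs
    push_cast at hs
    have ih' := ih (by omega)
    have hn' := hn (-(3 * uu m) + s) (by omega) (by omega)
    have low1 := ww_low h1 m (-(3 * uu m) + s) (abs_le.mpr ⟨by omega, by omega⟩)
    have low2 := ww_low h1 m (-(3 * uu m) + s + 1) (abs_le.mpr ⟨by omega, by omega⟩)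
    rw [show (-(3 * (uu m : ℤ)) + ((s + 1 : ℕ) : ℤ)) = -(3 * uu m) + s + 1 by push_cast; ring]
    have hD0 : (0 : ℤ) ≤ D := Int.natCast_nonneg _
    rcases hn' with ⟨hw, hb⟩ | ⟨hw, hb⟩
    · have e1 : (ww (-(3 * uu m) + s + 1) + m).toNat = (ww (-(3 * uu m) + s) + m).toNat + 1 := by
        rw [hw]; omega
      rw [e1, pow_succ', ← Int.ediv_ediv_of_nonneg hD0, hb]
      exact ih'
    · have e1 : (ww (-(3 * uu m) + s) + m).toNat = (ww (-(3 * uu m) + s + 1) + m).toNat + 1 := by
        rw [hw]; rw [hw] at low2; omega
      rw [e1, pow_succ', ← Int.ediv_ediv_of_nonneg hD0, hb] at ih'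
      exact ih'

theorem t_BLOCK (h1 : S_LEV) (h2 : S_STEP) : S_BLOCK := by
  intro D hD m hm ω hω S hopen hconn hv
  obtain ⟨⟨⟨c1, c2, c3, c4⟩, ρ, hρ0, hρ1, hρn, hρc⟩, lam, hl0, hl1, hln, hlc⟩ := hω
  obtain ⟨v, hvS, hv1, hv2, hv3⟩ := hv
  set h : ℤ := 3 * (uu m : ℤ) with hh
  have hD' : (2 : ℤ) ≤ D := by exact_mod_cast hD
  have hDpos : (0 : ℤ) < D := by omega
  have huu : ((uu (m + 1) : ℕ) : ℤ) = h + 1 := by rw [uu_succ]; push_cast; ring
  have hh0 : 0 ≤ h := by rw [hh]; positivity
  have w1 : ww h = -m := v2 h1 m
  have w2 : ww (-h) = -m := v4 h1 m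
  have w3 : ww (h + 1) = -(m + 1) := by
    have := v1 h1 (m + 1)
    rw [huu] at this
    push_cast at this
    exact this
  have w4 : ww (-h - 1) = -(m + 1) := by
    have := v3 h1 (m + 1)
    rw [huu] at this
    push_cast at this
    rw [show (-(h + 1)) = -h - 1 by ring] at this
    rw [this]
  rw [huu] at c1 c2 c3 c4
  rw [show (-(h + 1)) = -h - 1 by ring] at c3 c4
  set In : Set (ℤ × ℤ) := {p | |p.1| ≤ h ∧ lam p.1 < p.2 ∧ p.2 < ρ p.1} with hIn
  have hInfin : In.Finite := by
    have : In ⊆ ⋃ t ∈ Set.Icc (-h) h, (fun i => (t, i)) '' Set.Icc (lam t) (ρ t) := by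
      rintro ⟨t, i⟩ ⟨e1, e2, e3⟩
      simp only [Set.mem_iUnion]
      exact ⟨t, abs_le.mp e1, i, ⟨e2.le, e3.le⟩, rfl⟩
    refine Set.Finite.subset ?_ this
    exact (Set.finite_Icc _ _).biUnion fun t _ => (Set.finite_Icc _ _).image _
  -- neighbours
  have hnb : ∀ a b : ℤ × ℤ, a ∈ In → (Wall D ww).Adj a b → ω b = true → b ∈ In := by
    rintro ⟨t, i⟩ ⟨t', j⟩ ⟨e1, e2, e3⟩ hadj hb
    simp only at e1 e2 e3
    have e1' := abs_le.mp e1
    have hclosed : ∀ s : ℤ, -h ≤ s → s ≤ h → ∀ k : ℤ, ω (s, k) = true → lam s ≤ k → k ≤ ρ s →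
        (s, k) ∈ In := by
      intro s hs hs' k hk hk1 hk2
      refine ⟨abs_le.mpr ⟨hs, hs'⟩, ?_, ?_⟩
      · rcases hk1.lt_or_eq with h' | h'
        · exact h'
        · exfalso
          have := hlc s hs hs'
          rw [h'] at this
          rw [this] at hk
          exact Bool.false_ne_true hk
      · rcases hk2.lt_or_eq with h' | h'
        · exact h'
        · exfalso
          have := hρc s hs hs'
          rw [← h'] at this
          rw [this] at hk
          exact Bool.false_ne_true hk
    rw [Wall, RowGraph, SimpleGraph.fromRel_adj] at hadj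
    obtain ⟨_, hrel | hrel⟩ := hadj
    · rcases hrel with ⟨f1, f2⟩ | ⟨f1, f2, f3⟩
      · simp only at f1 f2
        subst f1 f2
        exact hclosed _ e1'.1 e1'.2 _ hb (by omega) (by omega)
      · simp only at f1 f2 f3
        subst f1
        rcases lt_or_ge t h with hlt | hge
        · -- up, inside
          have n1 := hρn t e1'.1 hlt
          have n2 := hln t e1'.1 hlt
          rcases h2 t with hw | hw
          · have g1 : ρ (t + 1) / D = ρ t := by
              rcases n1 with ⟨_, g⟩ | ⟨g, _⟩
              · exact g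
              · omega
            have g2 : lam (t + 1) / D = lam t := by
              rcases n2 with ⟨_, g⟩ | ⟨g, _⟩
              · exact g
              · omega
            rw [al, if_pos hw] at f2 f3
            have k1 : ρ t * D ≤ ρ (t + 1) := by
              rw [← g1]; exact Int.ediv_mul_le _ hDpos.ne'
            have k2 : lam (t + 1) < (lam t + 1) * D := by
              rw [← g2]; exact Int.lt_ediv_add_one_mul_self _ hDpos
            have k3 : (i + 1) * D ≤ ρ t * D := mul_le_mul_of_nonneg_right (by omega) hDpos.le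
            have k4 : (lam t + 1) * D ≤ i * D := mul_le_mul_of_nonneg_right (by omega) hDpos.le
            exact hclosed _ (by omega) (by omega) _ hb (by omega) (by omega)
          · have hw' : ¬ ww (t + 1) = ww t + 1 := by omega
            have g1 : ρ t / D = ρ (t + 1) := by
              rcases n1 with ⟨g, _⟩ | ⟨_, g⟩
              · omega
              · exact g
            have g2 : lam t / D = lam (t + 1) := by
              rcases n2 with ⟨g, _⟩ | ⟨_, g⟩
              · omega
              · exact g
            rw [al, if_neg hw'] at f2 f3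
            have k1 : (i + 1) / D ≤ ρ t / D := Int.ediv_le_ediv hDpos (by omega)
            have k2 : lam t / D ≤ i / D := Int.ediv_le_ediv hDpos (by omega)
            exact hclosed _ (by omega) (by omega) _ hb (by omega) (by omega)
        · -- up, to the hub
          exfalso
          have ht : t = h := by omega
          subst ht
          rw [hρ1] at e3
          rw [hl1] at e2
          have hw' : ¬ ww (h + 1) = ww h + 1 := by rw [w1, w3]; omega
          rw [al, if_neg hw'] at f2 f3
          have k1 : (-1 : ℤ) / D = -1 := Int.ediv_eq_neg_one_of_neg_of_le (by norm_num) (by omega)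
          have k2 : (-1 : ℤ) / D ≤ i / D := Int.ediv_le_ediv hDpos (by omega)
          have k3 : (i + 1) / D ≤ (1 : ℤ) / D := Int.ediv_le_ediv hDpos (by omega)
          have k4 : (1 : ℤ) / D = 0 := Int.ediv_eq_zero_of_lt (by norm_num) (by omega)
          have hj : j = 0 ∨ j = -1 := by omega
          rcases hj with rfl | rfl
          · rw [c1] at hb; exact Bool.false_ne_true hb
          · rw [c2] at hb; exact Bool.false_ne_true hb
    · rcases hrel with ⟨f1, f2⟩ | ⟨f1, f2, f3⟩
      · simp only at f1 f2
        subst f1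
        exact hclosed _ e1'.1 e1'.2 _ hb (by omega) (by omega)
      · simp only at f1 f2 f3
        subst f1
        rcases lt_or_ge t' (-h) with hlt | hge
        · -- down, to the hub
          exfalso
          have ht : t' = -h - 1 := by omega
          subst ht
          rw [show -h - 1 + 1 = -h by ring] at e2 e3
          rw [hρ0] at e3
          rw [hl0] at e2
          have hw : ww (-h - 1 + 1) = ww (-h - 1) + 1 := by
            rw [show -h - 1 + 1 = -h by ring, w2, w4]; ring
          rw [al, if_pos hw] at f2 f3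
          have hj1 : j < 1 := by
            by_contra hc
            have : 1 * (D : ℤ) ≤ j * D := mul_le_mul_of_nonneg_right (by omega) hDpos.le
            omega
          have hj2 : -2 < j := by
            by_contra hc
            have : (j + 1) * (D : ℤ) ≤ (-1) * D := mul_le_mul_of_nonneg_right (by omega) hDpos.le
            omega
          have hj : j = 0 ∨ j = -1 := by omega
          rcases hj with rfl | rfl
          · rw [c3] at hb; exact Bool.false_ne_true hb
          · rw [c4] at hb; exact Bool.false_ne_true hb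
        · have n1 := hρn t' hge (by omega)
          have n2 := hln t' hge (by omega)
          rcases h2 t' with hw | hw
          · have g1 : ρ (t' + 1) / D = ρ t' := by
              rcases n1 with ⟨_, g⟩ | ⟨g, _⟩
              · exact g
              · omega
            have g2 : lam (t' + 1) / D = lam t' := by
              rcases n2 with ⟨_, g⟩ | ⟨g, _⟩
              · exact g
              · omega
            rw [al, if_pos hw] at f2 f3
            have k1 : j ≤ ρ (t' + 1) / D := by
              rw [Int.le_ediv_iff_mul_le hDpos]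
              omega
            have k2 : lam (t' + 1) / D < j + 1 := by
              rw [Int.ediv_lt_iff_lt_mul hDpos]
              omega
            exact hclosed _ (by omega) (by omega) _ hb (by omega) (by omega)
          · have hw' : ¬ ww (t' + 1) = ww t' + 1 := by omega
            have g1 : ρ t' / D = ρ (t' + 1) := by
              rcases n1 with ⟨g, _⟩ | ⟨_, g⟩
              · omega
              · exact g
            have g2 : lam t' / D = lam (t' + 1) := by
              rcases n2 with ⟨g, _⟩ | ⟨_, g⟩
              · omega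
              · exact g
            rw [al, if_neg hw'] at f2 f3
            have k1 : j < ρ t' := by
              by_contra hc
              have : ρ t' / D ≤ j / D := Int.ediv_le_ediv hDpos (by omega)
              omega
            have k2 : lam t' < j + 1 := by
              by_contra hc
              have : (j + 1) / D ≤ lam t' / D := Int.ediv_le_ediv hDpos (by omega)
              omega
            exact hclosed _ (by omega) (by omega) _ hb (by omega) (by omega)
  -- the given vertex is inside
  have hvIn : v ∈ In := by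
    have hv1' := abs_le.mp hv1
    obtain ⟨s, hs⟩ := Int.eq_ofNat_of_zero_le (show 0 ≤ v.1 + h by omega)
    have hs' : v.1 = -h + s := by omega
    have a1 := anc h1 hD m ρ 1 hρ0 hρn s (by omega)
    have a2 := anc h1 hD m lam (-2) hl0 hln s (by omega)
    rw [← hh, ← hs'] at a1 a2
    set E : ℤ := (D : ℤ) ^ (ww v.1 + m).toNat with hE
    have hEpos : 0 < E := pow_pos hDpos _
    have b1 : 1 * E ≤ ρ v.1 := by
      rw [← a1]; exact Int.ediv_mul_le _ hEpos.ne'
    have b2 : lam v.1 < (-2 + 1) * E := by
      rw [← a2]; exact Int.lt_ediv_add_one_mul_self _ hEpos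
    exact ⟨hv1, by omega, by omega⟩
  -- connectedness
  have hwalk : ∀ (a b : S), ((Wall D ww).induce S).Walk a b → (a : ℤ × ℤ) ∈ In →
      (b : ℤ × ℤ) ∈ In := by
    intro a b p
    induction p with
    | nil => exact id
    | cons hadj p ih =>
      intro ha
      apply ih
      refine hnb _ _ ha ?_ (hopen _ (Subtype.coe_prop _))
      exact hadj
  refine hInfin.subset fun u hu => ?_
  obtain ⟨p⟩ := hconn.preconnected ⟨v, hvS⟩ ⟨u, hu⟩
  exact hwalk _ _ p hvIn

end Pool.Agent.W308.BW
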